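import Mathlib

set_option autoImplicit false

/-!
# MP_b2ceab_nt: equal prime supports of `x^(2^n) - 1` and `y^(2^n) - 1`

If `x < y` have the same prime supports for `n = 1, 2`, then every prime divisor of `y^4 - 1` divides
`y^2 - x^2`, so the radical of `y^4 - 1` is less than `y^2`. Such `y` are rare.
-/

namespace Pool.Agent.Results.MP_b2ceab_nt.SparseExceptions

open Finset

/-- `a` and `b` have the same prime divisors. -/
def SameSupp (a b : ℤ) : Prop := ∀ p : ℕ, p.Prime → ((p : ℤ) ∣ a ↔ (p : ℤ) ∣ b)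

/-- The hypothesis of Q1. -/
def Hyp (x y : ℕ) : Prop :=
  ∀ n : ℕ, 1 ≤ n → SameSupp ((x : ℤ) ^ (2 ^ n) - 1) ((y : ℤ) ^ (2 ^ n) - 1)

/-- The hypothesis of Q1 for `n = 1` and `n = 2` only. -/
def Linked (x y : ℕ) : Prop :=
  SameSupp ((x : ℤ) ^ 2 - 1) ((y : ℤ) ^ 2 - 1) ∧ SameSupp ((x : ℤ) ^ 4 - 1) ((y : ℤ) ^ 4 - 1)

lemma linked_of_hyp {x y : ℕ} (h : Hyp x y) : Linked x y :=
  ⟨h 1 le_rfl, h 2 (by norm_num)⟩

lemma key {x y p : ℕ} (hxy : x < y) (h : Linked x y) (hp : p.Prime)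
    (hd : (p : ℤ) ∣ (y : ℤ) ^ 4 - 1) : p ∣ y ^ 2 - x ^ 2 := by
  have hpp := Nat.prime_iff_prime_int.mp hp
  have h1 : ((p : ℤ) ∣ (x : ℤ) ^ 2 - 1 ↔ (p : ℤ) ∣ (y : ℤ) ^ 2 - 1) := h.1 p hp
  have h2 : ((p : ℤ) ∣ (x : ℤ) ^ 4 - 1 ↔ (p : ℤ) ∣ (y : ℤ) ^ 4 - 1) := h.2 p hp
  have h3 : (p : ℤ) ∣ (y : ℤ) ^ 2 - (x : ℤ) ^ 2 := by
    by_cases hc : (p : ℤ) ∣ (y : ℤ) ^ 2 - 1
    · have h4 := dvd_sub hc (h1.mpr hc)
      have h5 : (y : ℤ) ^ 2 - 1 - ((x : ℤ) ^ 2 - 1) = (y : ℤ) ^ 2 - (x : ℤ) ^ 2 := by ring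
      rwa [h5] at h4
    · have hc' : ¬ (p : ℤ) ∣ (x : ℤ) ^ 2 - 1 := fun h' => hc (h1.mp h')
      have hy : (p : ℤ) ∣ (y : ℤ) ^ 2 + 1 := by
        have h5 : (y : ℤ) ^ 4 - 1 = ((y : ℤ) ^ 2 - 1) * ((y : ℤ) ^ 2 + 1) := by ring
        rw [h5] at hd
        exact (hpp.dvd_or_dvd hd).resolve_left hc
      have hx : (p : ℤ) ∣ (x : ℤ) ^ 2 + 1 := by
        have h6 := h2.mpr hd
        have h5 : (x : ℤ) ^ 4 - 1 = ((x : ℤ) ^ 2 - 1) * ((x : ℤ) ^ 2 + 1) := by ring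
        rw [h5] at h6
        exact (hpp.dvd_or_dvd h6).resolve_left hc'
      have h4 := dvd_sub hy hx
      have h5 : (y : ℤ) ^ 2 + 1 - ((x : ℤ) ^ 2 + 1) = (y : ℤ) ^ 2 - (x : ℤ) ^ 2 := by ring
      rwa [h5] at h4
  have hle : x ^ 2 ≤ y ^ 2 := Nat.pow_le_pow_left hxy.le 2
  have h6 : ((y ^ 2 - x ^ 2 : ℕ) : ℤ) = (y : ℤ) ^ 2 - (x : ℤ) ^ 2 := by
    rw [Nat.cast_sub hle]
    push_cast
    ring
  rw [← h6] at h3
  exact Int.natCast_dvd_natCast.mp h3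

lemma dvd_of_squarefree {d Z : ℕ} (hd : Squarefree d) (h : ∀ p, p.Prime → p ∣ d → p ∣ Z) :
    d ∣ Z := by
  rw [← Nat.prod_primeFactors_of_squarefree hd]
  refine Finset.prod_primes_dvd Z (fun p hp => ?_) fun p hp => ?_
  · exact (Nat.prime_of_mem_primeFactors hp).prime
  · exact h p (Nat.prime_of_mem_primeFactors hp) (Nat.dvd_of_mem_primeFactors hp)

/-- squarefree divisors of `y^4 - 1` divide `y^2 - x^2` -/
lemma sqfree_dvd {x y d : ℕ} (hxy : x < y) (h : Linked x y) (hd : Squarefree d)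
    (hdy : d ∣ y ^ 4 - 1) : d ∣ y ^ 2 - x ^ 2 := by
  refine dvd_of_squarefree hd fun p hp hpd => key hxy h hp ?_
  have h1 : ((y ^ 4 - 1 : ℕ) : ℤ) = (y : ℤ) ^ 4 - 1 := by
    rw [Nat.cast_sub (Nat.one_le_pow _ _ (by omega))]
    push_cast
    ring
  rw [← h1]
  exact Int.natCast_dvd_natCast.mpr (hpd.trans hdy)

lemma fac {y : ℕ} (hy : 1 ≤ y) : y ^ 4 - 1 = (y - 1) * (y + 1) * (y ^ 2 + 1) := by
  obtain ⟨z, rfl⟩ : ∃ z, y = z + 1 := ⟨y - 1, by omega⟩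
  rw [Nat.add_sub_cancel]
  refine Nat.sub_eq_of_eq_add ?_
  ring

lemma fac2 {y : ℕ} (hy : 1 ≤ y) : y ^ 2 - 1 = (y - 1) * (y + 1) := by
  obtain ⟨z, rfl⟩ : ∃ z, y = z + 1 := ⟨y - 1, by omega⟩
  rw [Nat.add_sub_cancel]
  refine Nat.sub_eq_of_eq_add ?_
  ring

lemma prod_le_gen {z Z A B C : ℕ} (hz : 1 ≤ z) (hZ : 0 < Z)
    (hd : ∀ d, Squarefree d → d ∣ z ^ 4 - 1 → d ∣ Z)
    (hA : Squarefree A) (hB : Squarefree B) (hC : Squarefree C)
    (hAd : A ∣ z - 1) (hBd : B ∣ z + 1) (hCd : C ∣ z ^ 2 + 1) :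
    A * B * C ≤ 4 * Z := by
  have hfac := fac hz
  have hA' : A ∣ Z := hd A hA (by
    rw [hfac, mul_assoc]
    exact hAd.mul_right _)
  have hB' : B ∣ Z := hd B hB (by
    rw [hfac, mul_assoc]
    exact (hBd.mul_right _).mul_left _)
  have hC' : C ∣ Z := hd C hC (by
    rw [hfac]
    exact hCd.mul_left _)
  have hL1 : Nat.lcm A B ∣ Z := Nat.lcm_dvd hA' hB'
  have hL2 : Nat.lcm (Nat.lcm A B) C ∣ Z := Nat.lcm_dvd hL1 hC'
  have hg1 : Nat.gcd A B ∣ 2 := by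
    have h1 : Nat.gcd A B ∣ z - 1 := (Nat.gcd_dvd_left A B).trans hAd
    have h2 : Nat.gcd A B ∣ z + 1 := (Nat.gcd_dvd_right A B).trans hBd
    have h3 := Nat.dvd_sub h2 h1
    have h4 : z + 1 - (z - 1) = 2 := by omega
    rwa [h4] at h3
  have hL1y : Nat.lcm A B ∣ z ^ 2 - 1 := by
    rw [fac2 hz]
    exact Nat.lcm_dvd (hAd.mul_right _) (hBd.mul_left _)
  have hg2 : Nat.gcd (Nat.lcm A B) C ∣ 2 := by
    have h1 : Nat.gcd (Nat.lcm A B) C ∣ z ^ 2 - 1 := (Nat.gcd_dvd_left _ _).trans hL1y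
    have h2 : Nat.gcd (Nat.lcm A B) C ∣ z ^ 2 + 1 := (Nat.gcd_dvd_right _ _).trans hCd
    have h3 := Nat.dvd_sub h2 h1
    have h5 : 1 ≤ z ^ 2 := Nat.one_le_pow _ _ hz
    have h4 : z ^ 2 + 1 - (z ^ 2 - 1) = 2 := by omega
    rwa [h4] at h3
  have hg1' := Nat.le_of_dvd (by norm_num) hg1
  have hg2' := Nat.le_of_dvd (by norm_num) hg2
  have hL2' := Nat.le_of_dvd hZ hL2
  calc A * B * C = Nat.gcd A B * Nat.lcm A B * C := by rw [Nat.gcd_mul_lcm]
    _ = Nat.gcd A B * (Nat.lcm A B * C) := by ring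
    _ = Nat.gcd A B * (Nat.gcd (Nat.lcm A B) C * Nat.lcm (Nat.lcm A B) C) := by
        rw [Nat.gcd_mul_lcm]
    _ ≤ 2 * (2 * Z) := by gcongr
    _ = 4 * Z := by ring

/-- squarefree divisors of `x^4 - 1` divide `y^2 - x^2` -/
lemma sqfree_dvd' {x y d : ℕ} (hx : 0 < x) (hxy : x < y) (h : Linked x y) (hd : Squarefree d)
    (hdx : d ∣ x ^ 4 - 1) : d ∣ y ^ 2 - x ^ 2 := by
  refine dvd_of_squarefree hd fun p hp hpd => key hxy h hp ((h.2 p hp).mp ?_)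
  have h1 : ((x ^ 4 - 1 : ℕ) : ℤ) = (x : ℤ) ^ 4 - 1 := by
    rw [Nat.cast_sub (Nat.one_le_pow _ _ hx)]
    push_cast
    ring
  rw [← h1]
  exact Int.natCast_dvd_natCast.mpr (hpd.trans hdx)

lemma linked_symm {x y : ℕ} (h : Linked x y) : Linked y x :=
  ⟨fun p hp => (h.1 p hp).symm, fun p hp => (h.2 p hp).symm⟩

/-! ### counting -/

/-- numbers up to `M` with a small squarefree part -/
lemma count_small {t R M : ℕ} (ht : 1 ≤ t) (S : Finset ℕ)
    (hS : ∀ n ∈ S, 1 ≤ n ∧ n ≤ M ∧ ∃ a A, a ^ 2 * A = n ∧ A ≤ R) :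
    (S.card : ℝ) ≤ t * R + M / t := by
  classical
  have hsub : S ⊆ ((Icc 1 t ×ˢ Icc 1 R).image fun q => q.1 ^ 2 * q.2) ∪
      (Ioc t M).biUnion fun k => (Icc 1 (M / k ^ 2)).image fun m => k ^ 2 * m := by
    intro n hn
    obtain ⟨hn1, hnM, a, A, rfl, hA⟩ := hS n hn
    have ha : 1 ≤ a := by
      rcases Nat.eq_zero_or_pos a with rfl | h
      · simp at hn1
      · exact h
    have hA1 : 1 ≤ A := by
      rcases Nat.eq_zero_or_pos A with rfl | h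
      · simp at hn1
      · exact h
    rw [mem_union]
    rcases le_or_gt a t with hat | hat
    · left
      exact mem_image.mpr ⟨(a, A), by simp [ha, hat, hA1, hA], rfl⟩
    · right
      refine mem_biUnion.mpr ⟨a, ?_, mem_image.mpr ⟨A, ?_, rfl⟩⟩
      · rw [mem_Ioc]
        refine ⟨hat, le_trans ?_ hnM⟩
        nlinarith [Nat.mul_le_mul ha hA1]
      · rw [mem_Icc]
        refine ⟨hA1, ?_⟩
        rw [Nat.le_div_iff_mul_le (by positivity)]
        nlinarith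
  have h1 : S.card ≤ t * R + ∑ k ∈ Ioc t M, M / k ^ 2 := by
    refine (card_le_card hsub).trans ((card_union_le _ _).trans (add_le_add ?_ ?_))
    · refine card_image_le.trans ?_
      simp
    · refine card_biUnion_le.trans (sum_le_sum fun k _ => ?_)
      refine card_image_le.trans ?_
      simp
  have ht0 : (0 : ℝ) < t := by exact_mod_cast ht
  have h2 : ((∑ k ∈ Ioc t M, M / k ^ 2 : ℕ) : ℝ) ≤ M / t := by
    push_cast
    have h3 : ∑ k ∈ Ioc t M, ((M / k ^ 2 : ℕ) : ℝ) ≤ ∑ k ∈ Ioc t M, (M : ℝ) * ((k : ℝ) ^ 2)⁻¹ := by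
      refine sum_le_sum fun k _ => ?_
      refine (Nat.cast_div_le).trans ?_
      push_cast
      rw [div_eq_mul_inv]
    refine h3.trans ?_
    rw [← mul_sum, div_eq_mul_inv]
    refine mul_le_mul_of_nonneg_left ?_ (Nat.cast_nonneg M)
    rcases le_or_gt t M with hle | hlt
    · refine (sum_Ioc_inv_sq_le_sub (by omega) hle).trans ?_
      have : (0 : ℝ) ≤ (M : ℝ)⁻¹ := by positivity
      linarith
    · rw [Ioc_eq_empty_of_le hlt.le]
      simp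
  have h4 : (S.card : ℝ) ≤ ((t * R + ∑ k ∈ Ioc t M, M / k ^ 2 : ℕ) : ℝ) := by
    exact_mod_cast h1
  refine h4.trans ?_
  rw [Nat.cast_add]
  refine add_le_add (le_of_eq ?_) h2
  push_cast
  ring

/-- solutions of the negative Pell equation grow exponentially -/
lemma pell_gap {D y z m k : ℕ} (hD : 2 ≤ D) (h1 : k ^ 2 * D = y ^ 2 + 1)
    (h2 : m ^ 2 * D = z ^ 2 + 1) (hyz : y < z) : 2 * y < z := by
  have hkm : k < m := by
    have h3 : k ^ 2 * D < m ^ 2 * D := by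
      rw [h1, h2]
      have := Nat.pow_lt_pow_left hyz (n := 2) (by norm_num)
      omega
    exact lt_of_pow_lt_pow_left₀ 2 (Nat.zero_le _) (lt_of_mul_lt_mul_right h3 (Nat.zero_le _))
  zify at *
  have e1 : ((k : ℤ) * z) ^ 2 - (y * m) ^ 2 = m ^ 2 - k ^ 2 := by
    have a1 : (z : ℤ) ^ 2 = m ^ 2 * D - 1 := by linarith
    have a2 : (y : ℤ) ^ 2 = k ^ 2 * D - 1 := by linarith
    rw [mul_pow, mul_pow, a1, a2]
    ring
  have hk0 : (0 : ℤ) ≤ k := by positivity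
  have hm0 : (0 : ℤ) ≤ m := by positivity
  have hy0 : (0 : ℤ) ≤ y := by positivity
  have hz0 : (0 : ℤ) ≤ z := by positivity
  have hpos : 0 < (m : ℤ) ^ 2 - k ^ 2 := by nlinarith
  have h5 : (y : ℤ) * m < k * z := by
    by_contra hc
    push Not at hc
    nlinarith [mul_nonneg hk0 hz0]
  have h6 : (y : ℤ) * m + k * z ≤ m ^ 2 - k ^ 2 := by
    have h7 : ((k : ℤ) * z - y * m) * (k * z + y * m) = m ^ 2 - k ^ 2 := by
      rw [← e1]
      ring
    have h8 : (1 : ℤ) ≤ k * z - y * m := by linarith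
    have h9 : (0 : ℤ) ≤ k * z + y * m := by positivity
    nlinarith
  have hmpos : (0 : ℤ) < m := by linarith
  have h10 : 2 * (y : ℤ) < m + 1 := by
    by_contra hc
    push Not at hc
    nlinarith
  have h11 : (m : ℤ) ≤ z := by
    by_contra hc
    push Not at hc
    nlinarith
  have h12 : 2 * (y : ℤ) ≤ m := by linarith
  rcases h12.lt_or_eq with h13 | h13
  · linarith
  · exfalso
    have h14 : (y : ℤ) * m + k * z ≤ 2 * y * m - k ^ 2 := by nlinarith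
    have h15 : (k : ℤ) * z ≤ y * m - k ^ 2 := by linarith
    nlinarith [sq_nonneg (k : ℤ)]

lemma count_pell {D N : ℕ} (S : Finset ℕ)
    (hS : ∀ y ∈ S, 1 ≤ y ∧ y ≤ N ∧ ∃ c, c ^ 2 * D = y ^ 2 + 1) : S.card ≤ Nat.log 2 N + 1 := by
  have hgap : ∀ y ∈ S, ∀ z ∈ S, y < z → 2 * y < z := by
    intro y hy z hz hyz
    obtain ⟨hy1, -, c, hc⟩ := hS y hy
    obtain ⟨-, -, c', hc'⟩ := hS z hz
    have hD : 2 ≤ D := by
      by_contra hD
      have : D = 0 ∨ D = 1 := by omega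
      rcases this with rfl | rfl
      · simp at hc
      · have h1 : y < c := by
          by_contra hcy
          push Not at hcy
          have := Nat.pow_le_pow_left hcy 2
          omega
        have h2 : (y + 1) ^ 2 ≤ c ^ 2 := Nat.pow_le_pow_left h1 2
        nlinarith
    exact pell_gap hD hc hc' hyz
  have hmap : ∀ y ∈ S, Nat.log 2 y ∈ Finset.range (Nat.log 2 N + 1) := by
    intro y hy
    rw [mem_range]
    exact Nat.lt_succ_of_le (Nat.log_mono_right (hS y hy).2.1)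
  have hlt : ∀ y ∈ S, ∀ z ∈ S, y < z → Nat.log 2 y < Nat.log 2 z := by
    intro y hy z hz hyz
    have h1 := hgap y hy z hz hyz
    have h2 := (hS y hy).1
    have h3 : Nat.log 2 (y * 2) = Nat.log 2 y + 1 := Nat.log_mul_base (by norm_num) (by omega)
    have h4 : Nat.log 2 (y * 2) ≤ Nat.log 2 z := Nat.log_mono_right (by omega)
    omega
  have hinj : Set.InjOn (Nat.log 2) (S : Set ℕ) := by
    intro y hy z hz hyz
    rcases lt_trichotomy y z with h | h | h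
    · exact absurd hyz (hlt y hy z hz h).ne
    · exact h
    · exact absurd hyz (hlt z hz y hy h).ne'
  have := Finset.card_le_card_of_injOn (Nat.log 2) hmap hinj
  rwa [card_range] at this

open Classical in
/-- The `y ≤ N` for which some positive `x < y` satisfies the hypothesis of Q1 for `n = 1, 2`. -/
noncomputable def Exc (N : ℕ) : Finset ℕ :=
  (Icc 1 N).filter fun y => ∃ x, 0 < x ∧ x < y ∧ Linked x y

open Classical in
/-- The `z ≤ N` for which some positive `w ≤ Y`, `w ≠ z`, satisfies with `z` the hypothesis of Q1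
for `n = 1, 2`. -/
noncomputable def Mem (N Y : ℕ) : Finset ℕ :=
  (Icc 1 N).filter fun z => ∃ w, 0 < w ∧ w ≤ Y ∧ w ≠ z ∧ Linked z w

lemma one_not_linked {y : ℕ} (hy : 1 < y) : ¬ Linked 1 y := by
  intro h
  obtain ⟨p, hpy, hp⟩ := Nat.exists_infinite_primes (y ^ 2)
  have h1 : (p : ℤ) ∣ (y : ℤ) ^ 2 - 1 := (h.1 p hp).mp (by simp)
  have h2 : ((y ^ 2 - 1 : ℕ) : ℤ) = (y : ℤ) ^ 2 - 1 := by
    rw [Nat.cast_sub (Nat.one_le_pow _ _ (by omega))]
    push_cast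
    ring
  rw [← h2] at h1
  have h3 : 1 < y ^ 2 := Nat.one_lt_pow (by norm_num) hy
  have h4 := Nat.le_of_dvd (by omega) (Int.natCast_dvd_natCast.mp h1)
  omega

/-- general count -/
theorem count_gen (T R₁ R₂ N W : ℕ) (hT : 1 ≤ T) (E : Finset ℕ)
    (hE : ∀ z ∈ E, 2 ≤ z ∧ z ≤ N ∧ ∀ A B C : ℕ, Squarefree A → Squarefree B → Squarefree C →
      A ∣ z - 1 → B ∣ z + 1 → C ∣ z ^ 2 + 1 → A * B * C ≤ 4 * W)
    (hR : 4 * W ≤ R₁ * R₁ * R₂) :
    (E.card : ℝ) ≤ (T * R₁ + (N : ℝ) / T) + (T * R₁ + ((N + 1 : ℕ) : ℝ) / T)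
      + R₂ * (Nat.log 2 N + 1) := by
  classical
  let S1 := E.filter fun y => ∃ a A, a ^ 2 * A = y - 1 ∧ A ≤ R₁
  let S2 := E.filter fun y => ∃ a A, a ^ 2 * A = y + 1 ∧ A ≤ R₁
  let S3 := E.filter fun y => ∃ c C, c ^ 2 * C = y ^ 2 + 1 ∧ C ≤ R₂
  have hcover : E ⊆ S1 ∪ S2 ∪ S3 := by
    intro y hy
    obtain ⟨hy2, hyN, hprod⟩ := hE y hy
    obtain ⟨A, a, hA, hAs⟩ := Nat.sq_mul_squarefree (y - 1)
    obtain ⟨B, b, hB, hBs⟩ := Nat.sq_mul_squarefree (y + 1)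
    obtain ⟨C, c, hC, hCs⟩ := Nat.sq_mul_squarefree (y ^ 2 + 1)
    by_contra hc
    simp only [mem_union, not_or, S1, S2, S3, mem_filter, not_and, hy, true_imp_iff,
      not_exists, not_and, not_le] at hc
    have hA3 := hc.1.1 a A hA
    have hB3 := hc.1.2 b B hB
    have hC4 := hc.2 c C hC
    have hle := hprod A B C hAs hBs hCs (Dvd.intro_left _ hA) (Dvd.intro_left _ hB)
      (Dvd.intro_left _ hC)
    have h1 : R₁ * R₁ * R₂ < A * B * C := Nat.mul_lt_mul'' (Nat.mul_lt_mul'' hA3 hB3) hC4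
    omega
  have c1 : (S1.card : ℝ) ≤ T * R₁ + (N : ℝ) / T := by
    have h1 : (S1.image fun y => y - 1).card = S1.card := by
      refine card_image_of_injOn fun y hy z hz hyz => ?_
      have h2 := hE y (mem_filter.mp hy).1
      have h3 := hE z (mem_filter.mp hz).1
      have hyz' : y - 1 = z - 1 := hyz
      omega
    rw [← h1]
    refine count_small hT _ fun n hn => ?_
    obtain ⟨y, hy, rfl⟩ := mem_image.mp hn
    have h2 := hE y (mem_filter.mp hy).1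
    exact ⟨by omega, by omega, (mem_filter.mp hy).2⟩
  have c2 : (S2.card : ℝ) ≤ T * R₁ + ((N + 1 : ℕ) : ℝ) / T := by
    have h1 : (S2.image fun y => y + 1).card = S2.card := by
      refine card_image_of_injOn fun y hy z hz hyz => ?_
      have hyz' : y + 1 = z + 1 := hyz
      omega
    rw [← h1]
    refine count_small hT _ fun n hn => ?_
    obtain ⟨y, hy, rfl⟩ := mem_image.mp hn
    have h2 := hE y (mem_filter.mp hy).1
    exact ⟨by omega, by omega, (mem_filter.mp hy).2⟩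
  have c3 : (S3.card : ℝ) ≤ R₂ * (Nat.log 2 N + 1) := by
    have hsub : S3 ⊆ (Icc 1 R₂).biUnion fun C =>
        E.filter fun y => ∃ c, c ^ 2 * C = y ^ 2 + 1 := by
      intro y hy
      obtain ⟨hy1, c, C, hC, hC4⟩ := mem_filter.mp hy
      have hC1 : 1 ≤ C := by
        rcases Nat.eq_zero_or_pos C with rfl | h
        · simp at hC
        · exact h
      exact mem_biUnion.mpr ⟨C, mem_Icc.mpr ⟨hC1, hC4⟩, mem_filter.mpr ⟨hy1, c, hC⟩⟩
    have h1 : S3.card ≤ ∑ _C ∈ Icc 1 R₂, (Nat.log 2 N + 1) := by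
      refine (card_le_card hsub).trans (card_biUnion_le.trans (sum_le_sum fun C _ => ?_))
      refine count_pell (D := C) _ fun y hy => ?_
      have h2 := hE y (mem_filter.mp hy).1
      exact ⟨by omega, h2.2.1, (mem_filter.mp hy).2⟩
    rw [sum_const, Nat.card_Icc, smul_eq_mul, Nat.add_sub_cancel] at h1
    exact_mod_cast h1
  have hcard : (E.card : ℝ) ≤ S1.card + S2.card + S3.card := by
    have h1 : E.card ≤ S1.card + S2.card + S3.card :=
      (card_le_card hcover).trans ((card_union_le _ _).trans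
        (Nat.add_le_add_right (card_union_le _ _) _))
    exact_mod_cast h1
  linarith

theorem count (t : ℕ) (ht : 1 ≤ t) :
    ((Exc (t ^ 5)).card : ℝ) ≤ 4 * t ^ 4 * (Nat.log 2 (t ^ 5) + 3) := by
  classical
  have h := count_gen t (t ^ 3) (4 * t ^ 4) (t ^ 5) (t ^ 10) ht (Exc (t ^ 5)) (by
    intro y hy
    rw [Exc, mem_filter, mem_Icc] at hy
    obtain ⟨⟨_, h2⟩, x, hx, hxy, hL⟩ := hy
    refine ⟨by omega, h2, fun A B C hA hB hC hA' hB' hC' => ?_⟩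
    have hZ : 0 < y ^ 2 - x ^ 2 := Nat.sub_pos_of_lt (Nat.pow_lt_pow_left hxy (by norm_num))
    have h3 := prod_le_gen (by omega) hZ (fun d hd hdy => sqfree_dvd hxy hL hd hdy) hA hB hC
      hA' hB' hC'
    have h4 : y ^ 2 ≤ (t ^ 5) ^ 2 := Nat.pow_le_pow_left h2 2
    have h5 : (t ^ 5) ^ 2 = t ^ 10 := by ring
    omega) (le_of_eq (by ring))
  have ht0 : (0 : ℝ) < t := by exact_mod_cast ht
  have ht1 : (1 : ℝ) ≤ t := by exact_mod_cast ht
  have hNt : ((t ^ 5 : ℕ) : ℝ) / t = t ^ 4 := by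
    push_cast
    field_simp
  have hNt2 : ((t ^ 5 + 1 : ℕ) : ℝ) / t ≤ t ^ 4 + 1 := by
    have h6 : ((t ^ 5 + 1 : ℕ) : ℝ) / t = ((t ^ 5 : ℕ) : ℝ) / t + 1 / t := by
      push_cast
      ring
    rw [h6, hNt]
    have : (1 : ℝ) / t ≤ 1 := by
      rw [div_le_one ht0]
      exact ht1
    linarith
  have ht4 : (1 : ℝ) ≤ (t : ℝ) ^ 4 := one_le_pow₀ ht1
  rw [hNt] at h
  have h7 : (t : ℝ) * ((t ^ 3 : ℕ) : ℝ) = t ^ 4 := by
    push_cast
    ring
  rw [h7] at h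
  push_cast at h hNt2
  nlinarith [h, hNt2, ht4]

theorem count_mem (t : ℕ) (ht : 1 ≤ t) :
    ((Mem (t ^ 20) (t ^ 25)).card : ℝ) ≤ 4 * t ^ 18 * (Nat.log 2 (t ^ 20) + 3) := by
  classical
  have ht2 : 1 ≤ t ^ 2 := Nat.one_le_pow _ _ ht
  have h := count_gen (t ^ 2) (t ^ 16) (4 * t ^ 18) (t ^ 20) (t ^ 50) ht2
    (Mem (t ^ 20) (t ^ 25)) (by
    intro z hz
    rw [Mem, mem_filter, mem_Icc] at hz
    obtain ⟨⟨hz1, h2⟩, w, hw, hwY, hwz, hL⟩ := hz
    have hz2 : 2 ≤ z := by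
      by_contra hc
      have hz1' : z = 1 := by omega
      subst hz1'
      exact one_not_linked (by omega) hL
    refine ⟨hz2, h2, fun A B C hA hB hC hA' hB' hC' => ?_⟩
    have h5 : (t ^ 25) ^ 2 = t ^ 50 := by ring
    rcases Nat.lt_or_gt_of_ne hwz with hlt | hgt
    · have hZ : 0 < z ^ 2 - w ^ 2 := Nat.sub_pos_of_lt (Nat.pow_lt_pow_left hlt (by norm_num))
      have h3 := prod_le_gen (by omega) hZ
        (fun d hd hdy => sqfree_dvd hlt (linked_symm hL) hd hdy) hA hB hC hA' hB' hC'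
      have h6 : t ^ 20 ≤ t ^ 25 := Nat.pow_le_pow_right ht (by norm_num)
      have h4 : z ^ 2 ≤ (t ^ 25) ^ 2 := Nat.pow_le_pow_left (h2.trans h6) 2
      omega
    · have hZ : 0 < w ^ 2 - z ^ 2 := Nat.sub_pos_of_lt (Nat.pow_lt_pow_left hgt (by norm_num))
      have h3 := prod_le_gen (by omega) hZ
        (fun d hd hdy => sqfree_dvd' (by omega) hgt hL hd hdy) hA hB hC hA' hB' hC'
      have h4 : w ^ 2 ≤ (t ^ 25) ^ 2 := Nat.pow_le_pow_left hwY 2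
      omega) (le_of_eq (by ring))
  have ht0 : (0 : ℝ) < t := by exact_mod_cast ht
  have ht1 : (1 : ℝ) ≤ t := by exact_mod_cast ht
  have hNt : ((t ^ 20 : ℕ) : ℝ) / ((t ^ 2 : ℕ) : ℝ) = t ^ 18 := by
    push_cast
    field_simp
  have hNt2 : ((t ^ 20 + 1 : ℕ) : ℝ) / ((t ^ 2 : ℕ) : ℝ) ≤ t ^ 18 + 1 := by
    have h6 : ((t ^ 20 + 1 : ℕ) : ℝ) / ((t ^ 2 : ℕ) : ℝ)
        = ((t ^ 20 : ℕ) : ℝ) / ((t ^ 2 : ℕ) : ℝ) + 1 / ((t ^ 2 : ℕ) : ℝ) := by
      push_cast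
      ring
    rw [h6, hNt]
    have : (1 : ℝ) / ((t ^ 2 : ℕ) : ℝ) ≤ 1 := by
      rw [div_le_one (by exact_mod_cast ht2)]
      exact_mod_cast ht2
    linarith
  have ht4 : (1 : ℝ) ≤ (t : ℝ) ^ 18 := one_le_pow₀ ht1
  rw [hNt] at h
  have h7 : ((t ^ 2 : ℕ) : ℝ) * ((t ^ 16 : ℕ) : ℝ) = t ^ 18 := by
    push_cast
    ring
  rw [h7] at h
  have h8 : ((4 * t ^ 18 : ℕ) : ℝ) = 4 * (t : ℝ) ^ 18 := by push_cast; ring
  rw [h8] at h
  nlinarith [h, hNt2, ht4]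

lemma not_squarefree_add {x y : ℕ} (hx : 0 < x) (hxy : x < y) (h : Linked x y) :
    ¬ Squarefree (y ^ 2 + 1) := by
  intro hs
  have h1 := sqfree_dvd hxy h hs (by
    rw [fac (by omega : 1 ≤ y)]
    exact Dvd.intro_left _ rfl)
  have hZ : 0 < y ^ 2 - x ^ 2 := Nat.sub_pos_of_lt (Nat.pow_lt_pow_left hxy (by norm_num))
  have h2 := Nat.le_of_dvd hZ h1
  have h3 : 0 < x ^ 2 := by positivity
  omega

lemma not_squarefree_sub {x y : ℕ} (hx : 0 < x) (hxy : x < y) (h : Linked x y) :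
    ¬ Squarefree (y ^ 2 - 1) := by
  intro hs
  have h1 := sqfree_dvd hxy h hs (by
    rw [fac (by omega : 1 ≤ y), fac2 (by omega : 1 ≤ y)]
    exact Dvd.intro _ rfl)
  have hZ : 0 < y ^ 2 - x ^ 2 := Nat.sub_pos_of_lt (Nat.pow_lt_pow_left hxy (by norm_num))
  have h2 := Nat.le_of_dvd hZ h1
  have h4 : x ≤ 1 := by
    by_contra hc
    have h5 : 2 ^ 2 ≤ x ^ 2 := Nat.pow_le_pow_left (by omega) 2
    omega
  have h6 : x = 1 := by omega
  subst h6
  exact one_not_linked hxy h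

lemma log_le (N M : ℕ) (hM : 1 ≤ M) (h : M ≤ 32 * N) : Nat.log 2 M ≤ Nat.log 2 N + 5 := by
  have h1 : N < 2 ^ (Nat.log 2 N).succ := Nat.lt_pow_succ_log_self (by norm_num) N
  have h2 : M < 2 ^ (Nat.log 2 N + 6) := by
    have h3 : 2 ^ (Nat.log 2 N + 6) = 32 * 2 ^ (Nat.log 2 N).succ := by
      rw [Nat.succ_eq_add_one]
      ring
    rw [h3]
    omega
  have h4 := Nat.log_lt_of_lt_pow (by omega) h2
  omega

theorem count_all (N : ℕ) (hN : 1 ≤ N) :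
    ((Exc N).card : ℝ) ≤ 64 * (N : ℝ) ^ ((4 : ℝ) / 5) * (Nat.log 2 N + 8) := by
  classical
  have hNr : (1 : ℝ) ≤ N := by exact_mod_cast hN
  have hN0 : (0 : ℝ) ≤ N := by linarith
  set r : ℝ := (N : ℝ) ^ ((1 : ℝ) / 5) with hr
  have hr1 : 1 ≤ r := Real.one_le_rpow hNr (by norm_num)
  have hr5 : r ^ 5 = N := by
    rw [hr, ← Real.rpow_natCast, ← Real.rpow_mul hN0]
    norm_num
  have hr4 : r ^ 4 = (N : ℝ) ^ ((4 : ℝ) / 5) := by
    rw [hr, ← Real.rpow_natCast, ← Real.rpow_mul hN0]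
    norm_num
  set t : ℕ := ⌈r⌉₊ with ht
  have htr : r ≤ t := Nat.le_ceil r
  have htr2 : (t : ℝ) ≤ 2 * r := by
    have := Nat.ceil_lt_add_one (by linarith : 0 ≤ r)
    linarith
  have ht1 : 1 ≤ t := by
    have : (1 : ℝ) ≤ t := hr1.trans htr
    exact_mod_cast this
  have hNt : N ≤ t ^ 5 := by
    have h1 : (N : ℝ) ≤ (t : ℝ) ^ 5 := by
      rw [← hr5]
      gcongr
    exact_mod_cast h1
  have htN : t ^ 5 ≤ 32 * N := by
    have h1 : (t : ℝ) ^ 5 ≤ 32 * (N : ℝ) := by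
      have h2 : (t : ℝ) ^ 5 ≤ (2 * r) ^ 5 := by gcongr
      have h3 : (2 * r) ^ 5 = 32 * (N : ℝ) := by
        rw [mul_pow, hr5]
        norm_num
      linarith
    exact_mod_cast h1
  have hsub : Exc N ⊆ Exc (t ^ 5) := by
    intro y hy
    rw [Exc, mem_filter, mem_Icc] at hy ⊢
    exact ⟨⟨hy.1.1, hy.1.2.trans hNt⟩, hy.2⟩
  have h1 : ((Exc N).card : ℝ) ≤ (Exc (t ^ 5)).card := by exact_mod_cast card_le_card hsub
  have h2 := count t ht1
  have h3 : Nat.log 2 (t ^ 5) ≤ Nat.log 2 N + 5 := log_le N _ (Nat.one_le_pow _ _ ht1) htN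
  have h4 : (Nat.log 2 (t ^ 5) : ℝ) ≤ Nat.log 2 N + 5 := by exact_mod_cast h3
  have h5 : (t : ℝ) ^ 4 ≤ 16 * (N : ℝ) ^ ((4 : ℝ) / 5) := by
    calc (t : ℝ) ^ 4 ≤ (2 * r) ^ 4 := by gcongr
      _ = 16 * (N : ℝ) ^ ((4 : ℝ) / 5) := by rw [mul_pow, hr4]; norm_num
  calc ((Exc N).card : ℝ) ≤ 4 * t ^ 4 * (Nat.log 2 (t ^ 5) + 3) := h1.trans h2
    _ ≤ 4 * (16 * (N : ℝ) ^ ((4 : ℝ) / 5)) * (Nat.log 2 N + 5 + 3) := by gcongr
    _ = 64 * (N : ℝ) ^ ((4 : ℝ) / 5) * (Nat.log 2 N + 8) := by ring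

/-! ### multiplicatively dependent numbers -/

lemma one_lt_sum {A e : ℕ} (hA : 2 ≤ A) (he : 2 ≤ e) (q : ℕ) (hq : q * (A - 1) = A ^ e - 1) :
    ¬ q ≤ e := by
  intro hle
  obtain ⟨B, rfl⟩ : ∃ B, A = B + 1 := ⟨A - 1, by omega⟩
  obtain ⟨k, rfl⟩ : ∃ k, e = k + 1 := ⟨e - 1, by omega⟩
  rw [Nat.add_sub_cancel] at hq
  have h1 : 1 + k * B ≤ (B + 1) ^ k := by
    have h := one_add_mul_le_pow (R := ℤ) (a := (B : ℤ)) (by linarith [Int.natCast_nonneg B]) k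
    have h2 : (1 : ℤ) + k * B ≤ (B + 1) ^ k := by linarith [add_comm (B : ℤ) 1 ▸ h]
    exact_mod_cast h2
  have h2 : (B + 1) ^ (k + 1) = (B + 1) ^ k * (B + 1) := pow_succ _ _
  have h3 : 1 ≤ (B + 1) ^ (k + 1) := Nat.one_le_pow _ _ (by omega)
  have h4 : q * B + 1 = (B + 1) ^ (k + 1) := by omega
  have h5 : (1 + k * B) * (B + 1) ≤ (B + 1) ^ (k + 1) := by
    rw [h2]
    exact Nat.mul_le_mul_right _ h1
  have h6 : q * B ≤ (k + 1) * B := Nat.mul_le_mul_right _ hle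
  have hB : 1 ≤ B := by omega
  have hk : 1 ≤ k := by omega
  have h7 : 1 ≤ k * B * B := Nat.succ_le_of_lt (by positivity)
  nlinarith

lemma dvd_exp {A e q : ℕ} (hA : 2 ≤ A) (he : 1 ≤ e) (hq : q * (A - 1) = A ^ e - 1)
    (hsq : ∃ b, A = b ^ 2) (hp : ∀ p, p.Prime → p ∣ q → p ∣ A - 1) : q ∣ e := by
  have hAe : 2 ≤ A ^ e := hA.trans (Nat.le_self_pow (by omega) A)
  have hq0 : q ≠ 0 := by
    rintro rfl
    simp at hq
    omega
  rw [← Nat.factorization_le_iff_dvd hq0 (by omega)]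
  intro p
  by_cases hpp : p.Prime
  swap
  · simp [Nat.factorization_eq_zero_of_not_prime _ hpp]
  by_cases hpq : p ∣ q
  swap
  · rw [Nat.factorization_eq_zero_of_not_dvd hpq]
    exact Nat.zero_le _
  have hpA := hp p hpp hpq
  have hpA' : ¬ p ∣ A := by
    intro h
    have h1 := Nat.dvd_sub h hpA
    have h2 : A - (A - 1) = 1 := by omega
    rw [h2] at h1
    exact hpp.one_lt.ne' (Nat.dvd_one.mp h1)
  have : Fact p.Prime := ⟨hpp⟩
  have hmul : padicValNat p q + padicValNat p (A - 1) = padicValNat p (A ^ e - 1) := by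
    rw [← hq, padicValNat.mul hq0 (by omega)]
  rw [Nat.factorization_def _ hpp, Nat.factorization_def _ hpp]
  rcases hpp.eq_two_or_odd' with rfl | hodd
  · obtain ⟨b, rfl⟩ := hsq
    have hbodd : Odd b := by
      by_contra h
      rw [Nat.not_odd_iff_even] at h
      exact hpA' (dvd_pow h.two_dvd (by norm_num))
    rcases Nat.even_or_odd e with hev | hod
    · have h1 := padicValNat.pow_two_sub_pow (x := b ^ 2) (y := 1) (by omega) hpA hpA'
        (n := e) (by omega) hev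
      rw [one_pow] at h1
      have h2 : padicValNat 2 (b ^ 2 + 1) = 1 := by
        obtain ⟨c, rfl⟩ := hbodd
        have h3 : (2 * c + 1) ^ 2 + 1 = 2 * (2 * (c ^ 2 + c) + 1) := by ring
        rw [h3, padicValNat.mul (by norm_num) (by omega), padicValNat_self]
        have h4 : padicValNat 2 (2 * (c ^ 2 + c) + 1) = 0 :=
          padicValNat.eq_zero_of_not_dvd (by omega)
        omega
      omega
    · exfalso
      have h1 : q = ∑ i ∈ range e, (b ^ 2) ^ i := by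
        have h2 := Nat.geomSum_eq hA e
        rw [h2, ← hq, Nat.mul_div_cancel _ (by omega)]
      have h2 : Odd q := by
        rw [h1, ← ZMod.natCast_eq_one_iff_odd]
        push_cast
        have hb : (b : ZMod 2) = 1 := ZMod.natCast_eq_one_iff_odd.mpr hbodd
        rw [hb]
        simp only [one_pow, sum_const, card_range, nsmul_eq_mul, mul_one]
        exact ZMod.natCast_eq_one_iff_odd.mpr hod
      exact (Nat.not_even_iff_odd.mpr h2) (even_iff_two_dvd.mpr hpq)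
  · have h1 := padicValNat.pow_sub_pow (p := p) (x := A) (y := 1) hodd (by omega) hpA hpA'
      (n := e) (by omega)
    rw [one_pow] at h1
    omega
lemma cast_pow_sub (a k : ℕ) (ha : 1 ≤ a) : ((a ^ k - 1 : ℕ) : ℤ) = (a : ℤ) ^ k - 1 := by
  rw [Nat.cast_sub (Nat.one_le_pow _ _ ha)]
  push_cast
  ring

lemma indep {a r s : ℕ} (ha : 2 ≤ a) (hr : 0 < r) (hrs : r < s) : ¬ Linked (a ^ r) (a ^ s) := by
  intro h
  obtain ⟨f, e, hco, hf, he⟩ := Nat.exists_coprime r s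
  set g := Nat.gcd r s with hg
  have hf1 : 1 ≤ f := by
    rcases Nat.eq_zero_or_pos f with h0 | h0
    · rw [h0] at hf
      omega
    · exact h0
  have hg1 : 1 ≤ g := by
    rcases Nat.eq_zero_or_pos g with h0 | h0
    · rw [h0] at hf
      omega
    · exact h0
  have hfe : f < e := by
    rw [hf, he] at hrs
    exact lt_of_mul_lt_mul_right hrs (Nat.zero_le _)
  have hA2 : 2 ≤ a ^ (4 * g) := ha.trans (Nat.le_self_pow (by omega) a)
  have hAe : (a ^ (4 * g)) ^ e = (a ^ s) ^ 4 := by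
    rw [← pow_mul, ← pow_mul]
    congr 1
    rw [he]
    ring
  have hAf : (a ^ (4 * g)) ^ f = (a ^ r) ^ 4 := by
    rw [← pow_mul, ← pow_mul]
    congr 1
    rw [hf]
    ring
  have hdvd : a ^ (4 * g) - 1 ∣ (a ^ (4 * g)) ^ e - 1 := by
    have := Nat.sub_dvd_pow_sub_pow (a ^ (4 * g)) 1 e
    rwa [one_pow] at this
  have hq := Nat.div_mul_cancel hdvd
  have has : 1 ≤ a ^ s := Nat.one_le_pow _ _ (by omega)
  have har : 1 ≤ a ^ r := Nat.one_le_pow _ _ (by omega)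
  refine one_lt_sum hA2 (by omega) _ hq (Nat.le_of_dvd (by omega)
    (dvd_exp hA2 (by omega) hq ⟨a ^ (2 * g), ?_⟩ fun p hp hpq => ?_))
  · rw [← pow_mul]
    congr 1
    ring
  · have h1 : p ∣ (a ^ s) ^ 4 - 1 := by
      rw [← hAe, ← hq]
      exact hpq.mul_right _
    have h2 : (p : ℤ) ∣ ((a ^ s : ℕ) : ℤ) ^ 4 - 1 := by
      rw [← cast_pow_sub _ _ has]
      exact Int.natCast_dvd_natCast.mpr h1
    have h3 := (h.2 p hp).mpr h2
    rw [← cast_pow_sub _ _ har] at h3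
    have h4 : p ∣ (a ^ r) ^ 4 - 1 := Int.natCast_dvd_natCast.mp h3
    rw [← hAf] at h4
    rw [← hAe] at h1
    have h5 := Nat.dvd_gcd h1 h4
    rw [Nat.pow_sub_one_gcd_pow_sub_one, Nat.Coprime.gcd_eq_one hco.symm, pow_one] at h5
    exact h5

/-- **Main theorem.** -/
theorem result :
    (∀ x y : ℕ, Hyp x y → Linked x y) ∧
    (∀ x y : ℕ, 0 < x → x < y → Linked x y →
      (∀ d : ℕ, Squarefree d → d ∣ y ^ 4 - 1 → d ∣ y ^ 2 - x ^ 2) ∧
      ¬ Squarefree (y ^ 2 + 1) ∧ ¬ Squarefree (y ^ 2 - 1)) ∧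
    (∀ N : ℕ, 1 ≤ N →
      ((Exc N).card : ℝ) ≤ 64 * (N : ℝ) ^ ((4 : ℝ) / 5) * (Nat.log 2 N + 8)) ∧
    (∀ t : ℕ, 1 ≤ t →
      ((Mem (t ^ 20) (t ^ 25)).card : ℝ) ≤ 4 * t ^ 18 * (Nat.log 2 (t ^ 20) + 3)) ∧
    (∀ a r s : ℕ, 2 ≤ a → 0 < r → r < s → ¬ Linked (a ^ r) (a ^ s)) :=
  ⟨fun _ _ h => linked_of_hyp h, fun _ _ hx hxy h => ⟨fun _ hd hdy => sqfree_dvd hxy h hd hdy,
    not_squarefree_add hx hxy h, not_squarefree_sub hx hxy h⟩, count_all, count_mem,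
    fun _ _ _ ha hr hrs => indep ha hr hrs⟩

end Pool.Agent.Results.MP_b2ceab_nt.SparseExceptions
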